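import Pool.Agent.V5helper34.KC.Fin

set_option autoImplicit false

/-!
# MP_b1773a: Kakeya sets in `ℝ^4` whose lines are concurrent along the leaves of a `C^2` foliation

The lines of `ℝ^(d+1)` are written as `{(x + r v, t + r) : r ∈ ℝ}`, where `v ∈ ℝ^d` is the slope: the
direction is `(v, 1)`.  Let `f` be a function of class `C^2` on a nonempty open set `U ⊆ ℝ^d` of
slopes, and assume that the lines whose slopes are on one level set `{f = s}` pass through one point
`(g s, τ s)`, where `g` and `τ` are arbitrary Borel functions: *no continuity is assumed from level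
to level*.  With `f v = v 0` and `τ = 0` one obtains the products of the planar Besicovitch sets of
measure zero with cubes.

We prove that every set that meets almost all of these lines in positive length has Hausdorff
dimension `d + 1`, for **every** `C^2` function `f` if `d + 1 ≤ 4`, and in all dimensions if the
points at which `f' ≠ 0` and the second derivative is both degenerate and indefinite on the kernel of
`f'` are not dense in `U`.

Proof: near some point the leaves are convex, concave or graphs of functions `ψ(s; y, z)` which are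
convex in `y` and concave in `z`.  For fixed `y` and `z'` the lines with the parameters `(s, y, z)`
and `(s', y', z')`, with variable `z` and `y'`, are close only once, and transversally with the
angle `|s - s'|`.  This gives the estimate of the planar case for the measure of the pairs of close
points.
-/

open MeasureTheory Set

namespace Pool.Agent.Results.MP_b1773a_an.ConcurrentLeaves

/-- Euclidean space `ℝ^n`. -/
abbrev E (n : ℕ) : Type := EuclideanSpace ℝ (Fin n)

/-- The point `(x, t)` of `ℝ^(d+1)`. -/
noncomputable def pt {d : ℕ} (x : E d) (t : ℝ) : E (d + 1) :=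
  WithLp.toLp 2 (Fin.snoc x t : Fin (d + 1) → ℝ)

/-- The first derivative of `f` at `v` in the direction `u`. -/
noncomputable def D1 {d : ℕ} (f : E d → ℝ) (v u : E d) : ℝ := fderiv ℝ f v u

/-- The second derivative of `f` at `v` in the directions `u` and `w`. -/
noncomputable def D2 {d : ℕ} (f : E d → ℝ) (v u w : E d) : ℝ := fderiv ℝ (fderiv ℝ f) v u w

/-- `f'(v) ≠ 0` and the second derivative of `f` at `v`, restricted to the kernel of `f'(v)`, is
degenerate and indefinite. -/
def Mixed {d : ℕ} (f : E d → ℝ) (v : E d) : Prop :=
  (∃ u, D1 f v u ≠ 0) ∧ (∃ u, u ≠ 0 ∧ D1 f v u = 0 ∧ ∀ w, D1 f v w = 0 → D2 f v u w = 0) ∧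
  (∃ u, D1 f v u = 0 ∧ 0 < D2 f v u u) ∧ (∃ u, D1 f v u = 0 ∧ D2 f v u u < 0)

theorem mixed_iff {d : ℕ} (f : E d → ℝ) (v : E d) :
    Pool.Agent.V5helper34.KC.Mx.Mixed f v ↔ Mixed f v := by
  constructor
  · rintro ⟨h1, h2⟩
    refine ⟨?_, h2⟩
    by_contra hcon
    push Not at hcon
    apply h1
    ext x
    exact hcon x
  · rintro ⟨⟨u, h1⟩, h2⟩
    refine ⟨?_, h2⟩
    intro h0
    apply h1
    change fderiv ℝ f v u = 0
    rw [h0]
    rfl

/-- **Kakeya conjecture for families of lines which are concurrent along the level sets of a `C^2`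
function**, in dimension at most four without any condition, and in all dimensions under a
condition on the curvature of the level sets. -/
theorem result (d : ℕ) (U : Set (E d)) (hU : IsOpen U) (hne : U.Nonempty) (f : E d → ℝ)
    (hf : ContDiffOn ℝ 2 f U) (hd : d + 1 ≤ 4 ∨ ¬ U ⊆ closure {v ∈ U | Mixed f v})
    (g : ℝ → E d) (hg : Measurable g) (τ : ℝ → ℝ) (hτ : Measurable τ) (K : Set (E (d + 1)))
    (hK : ∀ᵐ v ∂(volume.restrict U),
      volume {r : ℝ | pt (g (f v) + r • v) (τ (f v) + r) ∈ K} ≠ 0) :
    dimH K = (d + 1 : ℕ) := by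
  have hK' : ∀ᵐ v ∂(volume.restrict U), 0 < volume {r : ℝ |
      Pool.Agent.V5helper34.KC.pt (g (f v) + r • v) (τ (f v) + r) ∈ K} := by
    filter_upwards [hK] with v hv
    exact pos_iff_ne_zero.2 hv
  rcases hd with hd | hd
  · exact Pool.Agent.V5helper34.KC.Mx.low (by omega) hU hne hf hg hτ hK'
  · refine Pool.Agent.V5helper34.KC.Mx.generic hU hf ?_ hg hτ hK'
    simp only [mixed_iff]
    exact hd

end Pool.Agent.Results.MP_b1773a_an.ConcurrentLeaves
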