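import Pool.Agent.V5helper3.Kak.Cols

set_option autoImplicit false

/-!
# MP_b1773a: Kakeya sets and differentiable families of parallel planes

Let `V_s = {(x, F_s (π x))}` be a family of `k`-planes in `ℝ^k × ℝ^m`, with parameters `s` in a set
`A ⊆ ℝ^p` of positive outer Lebesgue measure; the linear maps `F_s : ℝ^k' → ℝ^m` depend
differentiably on `s ∈ A` and the linear map `π : ℝ^k → ℝ^k'` is fixed and onto (for `k' < k` all
the planes of the family contain the subspace `ker π × {0}`).  Assume that the direction map is a
submersion: for all `s ∈ A` and `x ≠ 0` the derivative of `s ↦ F_s x` is onto `ℝ^m`.  So the planes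
of the family move in such a way that each of their directions outside `ker π × {0}` sweeps out
all directions nearby.  Examples: the complex lines in `ℂ² = ℝ⁴` (`p = k = k' = m = 2`,
`F_s` = multiplication by `s`), the quaternionic lines in `ℝ⁸`, all `k`-planes, all
Lagrangian planes, nondegenerate fibrations of spheres by great spheres, pencils of hyperplanes.

We prove: if `K ⊆ ℝ^k × ℝ^m` is any set and for each `s ∈ A` there is a set of translates
`V_s + (0, b)`, `b ∈ B_s`, with `B_s` of packing dimension at most `γ` (e.g. one translate, or
countably many: `γ = 0`), such that the trace of `K` on the union of these translates projects to a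
set of dimension at least `t` in `ℝ^k` (coordinate `x`), then
`dim_H K ≥ 2 t - k + min (m, k') - 2 γ`.  Nothing is assumed on the way `B_s` depends on `s`, and
`K`, `A` need not be measurable.

For a Kakeya set `K` the projected trace is a Kakeya set of `ℝ^k` as soon as the translates
`V_s + (0, b)`, `b ∈ B_s`, contain a segment of `K` in every direction of `V_s`; for `k = 2` its
dimension is `t = 2` by Davies' theorem, which is proved on the way and built into the statement
(second alternative of `hK`).  Thus, for `k = m = k' = 2`: a subset of `ℝ⁴` which contains, for
almost every direction `V_s` of (say) complex lines, a segment in every direction of `V_s`, all of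
them in a packing-zero-dimensional set of translates of `V_s`, has Hausdorff dimension `4`; and for
an arbitrary Kakeya set `K ⊆ ℝ⁴` and almost every `s` the set of translates of `V_s` that contain a
segment of `K` has packing dimension at least `(4 - dim_H K) / 2`.
-/

open MeasureTheory Set Metric ENNReal Pool.Agent.V5helper3.Kak

namespace Pool.Agent.Results.MP_b1773a_an.FibredFamilies

/-- **Kakeya sets and differentiable families of parallel planes.** -/
theorem result {p k k' m : ℕ} (f : Fin k' → E p → E m) (π : E k →ₗ[ℝ] E k') (A : Set (E p))
    (K : Set (E k × E m)) (t γ : ℝ) (hπ : Function.Surjective π) (hA : volume A ≠ 0)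
    (hf : Submersive f A) (ht : 0 < t)
    (hK : ∀ s ∈ A, ∃ B, PackingDimLE γ B ∧ Large t (trace (fun j => f j s) π B K)) :
    ENNReal.ofReal (2 * t - k + (min m k' : ℕ) - 2 * γ) ≤ dimH K :=
  cols_slices f π A K t γ hπ hA hf ht hK

end Pool.Agent.Results.MP_b1773a_an.FibredFamilies
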