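import Pool.Agent.V5helper78.KK.Probe
import Pool.Agent.V5helper78.KK.Univ
import Pool.Agent.V5helper78.KK.Lin

set_option autoImplicit false

/-!
# MP_b1773a: generic perturbations of arbitrary families of Kakeya lines, and the sharp regularity

Let `n = d + 1` with `d ≥ 1`.  A selection `a : ℝ^d → ℝ^d` puts the line
`{(a v + t v, t) : t ∈ ℝ}` in direction `(v, 1)`, for every `v`.  The theorem compares the loss in
the Kakeya inequality of a generic perturbation of an arbitrary measurable selection with the
regularity of the perturbation.

* Perturbations of regularity `H < 1`: there is a finite dimensional space of locally `H`-Hoelder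
  maps such that for every measurable selection `a` almost every member of the coset `a + space`
  satisfies the lossless inequality
  `∫_{|v| ≤ R} ∫_{|t| ≤ R} f (a v + t v, t) dt dv ≤ B ‖f‖_2`; in particular every set which meets
  the lines of a set of directions of positive outer measure in positive length has positive
  volume: no Kakeya null set arises.
* Regularity one, upper bound: for every measurable `a`, for almost every matrix `C` the selection
  `a + C` satisfies the same inequality at scale `2^(-k)` with a loss of at most `(k+1)^s`, for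
  every `s > 1`.
* Regularity one, lower bound: some loss is unavoidable.  There is one selection `a`, which is
  `H`-Hoelder for every `H < 1`, such that for every almost everywhere differentiable `g` the
  family `a + g` has a set of volume zero that contains almost every line of the family.
-/

open MeasureTheory Set

namespace Pool.Agent.Results.MP_b1773a_an.PrevalentSelections

open Pool.Agent.V5helper78.KK

/-- **Generic Kakeya inequalities and the sharp regularity threshold.** -/
theorem result (d : ℕ) (hd : 0 < d) :
    (∀ H : ℝ, 0 < H → H < 1 →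
      ∃ (m : ℕ) (ψ : (Fin d → ℝ) → Fin m → ℝ) (A : ℝ),
        (∀ v w, dist v w ≤ 1 → dist (ψ v) (ψ w) ≤ A * dist v w ^ H) ∧
        ∀ a : (Fin d → ℝ) → Fin d → ℝ, Measurable a →
          ∀ᵐ C : Fin d → Fin m → ℝ, Lossless (per a ψ C) ∧ NoNullSet (per a ψ C)) ∧
    (∀ a : (Fin d → ℝ) → Fin d → ℝ, Measurable a →
      ∀ᵐ C : Fin d → Fin d → ℝ, ∀ s : ℝ, 1 < s → LogLoss (per a id C) s) ∧
    (∃ a : (Fin d → ℝ) → Fin d → ℝ,
      (∀ H : ℝ, 0 < H → H < 1 → ∃ A : ℝ, ∀ v w, dist (a v) (a w) ≤ A * dist v w ^ H) ∧
      ∀ g : (Fin d → ℝ) → Fin d → ℝ, (∀ᵐ v, DifferentiableAt ℝ g v) →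
        ∃ K : Set (E (d + 1)), volume K = 0 ∧
          ∀ᵐ v, ∀ t : ℝ, lpt (fun v i => a v i + g v i) v t ∈ K) := by
  refine ⟨?_, fun a ha => linear_main ha, exists_bad hd⟩
  intro H h0 h1
  obtain ⟨m, ψ, A, hc, hψ, hE⟩ := exists_prob d h0 h1
  exact ⟨m, ψ, A, hψ, fun a ha => general hc.measurable (fun N => hE N) ha⟩

end Pool.Agent.Results.MP_b1773a_an.PrevalentSelections
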