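import Pool.Agent.V5helper28.KP.Fin5
import Pool.Agent.V5helper91.KP.GOOD2
import Pool.Agent.V5helper18.KP.MD2
import Pool.Agent.V5helper4.KP.COD
import Pool.Agent.V5helper36.KP.GGR

set_option autoImplicit false

/-!
# MP_b1773a: Kakeya sets whose lines form a self-similar (graph-directed) family

Let `n = d + 1`.  The point of `ℝ^(d+1)` with height `t` and horizontal coordinates `y` is `pt t y`.
A pair `(v, a)` of `ℝ^d × ℝ^d` encodes the line `{pt t (a + t v) : t ∈ ℝ}`, of direction `(1, v)`.

Let `(Γ p)`, `p ∈ P`, be a strongly connected graph-directed self-similar system of families of lines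
(`RGD`): `P` and the set `I` of edges are finite, the `Γ p ⊆ ℝ^d × ℝ^d` are nonempty and compact, and
`Γ p` is the union of the copies `R i • (O i × O i) (Γ (tgt i)) + b i`, `0 < R i < 1`, over the
edges `i` with source `p`, where the linear isometries `O i` of `ℝ^d` generate a finite group.  For
one vertex this is a self-similar family of lines (with a finite rotation group, for instance with
ratios of arbitrary signs).  The copies may overlap, no separation of any kind is assumed and a
family may have several lines of the same slope.  Null Kakeya sets are obtained from such families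
(Kahane's example and its products).  Then

1. outside a set of heights of Hausdorff dimension zero, the slice at height `t` of the union of
   the lines of `Γ p` has at least the Hausdorff dimension of the set of slopes of `Γ p`;
2. an ARBITRARY set `K ⊆ ℝ^(d+1)` (no closedness or measurability is assumed) which meets each line of
   `Γ p`, except for lines whose slopes lie in a set `N` with `dim N < dim (slopes of Γ p)` (or
   `N = ∅`), in a set of positive outer length has Hausdorff dimension at least
   `1 + dim (slopes of Γ p)`; in particular `dim K = n` when the slopes have full dimension `d`;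
3. for one vertex, no rotations, equal ratios `r` and `|I| r ^ d = 1` both conclusions hold for
   SUBFAMILIES: outside a set of heights of dimension zero every subfamily `Γ'`, whatever its
   structure, whose slopes have positive outer measure has slices of dimension `d`, and `dim K = n` for
   every set `K` which meets, for the slopes `v` of a set of positive outer measure, some line of slope
   `v` of the family in positive outer length.

The slices are self-similar sets of `ℝ^d` that depend on only one parameter, so that a
transversality argument gives only the dimension one.  The proof uses an inverse theorem for the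
entropy of convolutions in the spirit of Hochman, for systems of homotheties of `ℝ^d` (which are
reducible, so that the exact overlap theorem fails for them), a determinant argument in `t`
that excludes that the words cluster along a subspace at many heights, and, for 2 and 3, a second moment
(pair counting) argument which shows that at a good height almost every point of the code space is
typical at all small scales, so that arbitrary subsets of positive measure can be treated.
-/

open MeasureTheory Set

namespace Pool.Agent.Results.MP_b1773a_an.SelfSimilarFamilies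

open Pool.Agent.V5helper28.SSK Pool.Agent.V5helper28.KP

/-- **Kakeya sets built on self-similar families of lines, in every dimension.** -/
theorem result (d : ℕ) (P I : Type) [Finite P] [Fintype I] (src tgt : I → P) (R : I → ℝ)
    (O : I → (E d ≃ₗᵢ[ℝ] E d)) (b : I → E d × E d) (Γ : P → Set (E d × E d))
    (hΓ : RGD P I src tgt R O b Γ) :
    (∃ Z : Set ℝ, dimH Z = 0 ∧ ∀ t, t ∉ Z → ∀ p,
      dimH {v : E d | ∃ a, (v, a) ∈ Γ p} ≤ dimH {y : E d | ∃ v a, (v, a) ∈ Γ p ∧ y = a + t • v}) ∧
    (∀ (p : P) (K : Set (E (d + 1))) (N : Set (E d)),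
      (N.Nonempty → dimH N < dimH {v : E d | ∃ a, (v, a) ∈ Γ p}) →
      (∀ v a, (v, a) ∈ Γ p → v ∉ N → 0 < volume {t : ℝ | pt t (a + t • v) ∈ K}) →
      dimH {v : E d | ∃ a, (v, a) ∈ Γ p} + 1 ≤ dimH K ∧
        (dimH {v : E d | ∃ a, (v, a) ∈ Γ p} = d → dimH K = d + 1)) ∧
    ∀ (p : P) (r : ℝ), (∀ q : P, q = p) → (∀ i, R i = r ∧ ∀ x, O i x = x) →
      (Fintype.card I : ℝ) * r ^ d = 1 →
      (∃ Z : Set ℝ, dimH Z = 0 ∧ ∀ t, t ∉ Z → ∀ Γ' : Set (E d × E d), Γ' ⊆ Γ p →
        0 < volume {v : E d | ∃ a, (v, a) ∈ Γ'} →
        dimH {y : E d | ∃ v a, (v, a) ∈ Γ' ∧ y = a + t • v} = d) ∧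
      ∀ K : Set (E (d + 1)),
        0 < volume {v : E d | ∃ a, (v, a) ∈ Γ p ∧ 0 < volume {t : ℝ | pt t (a + t • v) ∈ K}} →
        dimH K = d + 1 := by
  have e1 : ∀ Γ : Set (E d × E d), {v : E d | ∃ a, (v, a) ∈ Γ} = Prod.fst '' Γ := by
    intro Γ
    ext v
    simp
  have e2 : ∀ (t : ℝ) (Γ : Set (E d × E d)), {y : E d | ∃ v a, (v, a) ∈ Γ ∧ y = a + t • v}
      = (fun z : E d × E d => z.2 + t • z.1) '' Γ := by
    intro t Γ
    ext y
    constructor
    · rintro ⟨v, a, h, rfl⟩
      exact ⟨(v, a), h, rfl⟩
    · rintro ⟨⟨v, a⟩, h, rfl⟩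
      exact ⟨v, a, h, rfl⟩
  simp only [e1, e2]
  have h := fin_rgd Pool.Agent.V5helper36.KP.t_GGR
    (Pool.Agent.V5helper91.KP.Two.t_GOOD2 Pool.Agent.V5helper18.KP.t_MD2)
    Pool.Agent.V5helper4.KPC.t_COD hΓ
  refine ⟨h.1, fun p K N hN hK => h.2 p K N hN fun z hz hzN => (hK z.1 z.2 hz hzN).ne', ?_⟩
  intro p r hP hR hN
  have hI : Nonempty I := by
    by_contra hcon
    rw [not_nonempty_iff] at hcon
    rw [Fintype.card_eq_zero] at hN
    simp at hN
  obtain ⟨i₀⟩ := hI
  have hr := hΓ.ratio i₀
  rw [(hR i₀).1] at hr
  have hinv : Γ p = ⋃ i, (fun z => r • z + b i) '' Γ p := by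
    have h1 := hΓ.inv p
    have h2 : (⋃ (i : I) (_ : src i = p),
        (fun z : E d × E d => R i • (O i z.1, O i z.2) + b i) '' Γ (tgt i)) =
        ⋃ i, (fun z => r • z + b i) '' Γ p := by
      refine iUnion_congr fun i => ?_
      have : Nonempty (src i = p) := ⟨hP (src i)⟩
      rw [iUnion_const, hP (tgt i), (hR i).1]
      refine image_congr fun z _ => ?_
      rw [(hR i).2, (hR i).2]
    rw [← h2]
    exact h1
  obtain ⟨Z, hZ0, hZ1, hZ2⟩ := homog hr.1 hr.2 hN (hΓ.compact p) hinv
  refine ⟨⟨Z, hZ0, fun t ht Γ' hΓ' hpos => hZ1 t ht Γ' hΓ' hpos.ne'⟩, fun K hK => hZ2 K ?_⟩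
  refine (lt_of_lt_of_le hK (measure_mono ?_)).ne'
  rintro v ⟨a, ha, h3⟩
  exact ⟨a, ha, h3.ne'⟩

end Pool.Agent.Results.MP_b1773a_an.SelfSimilarFamilies
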